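import Pool.Agent.Q215.MK.Stm

/-!
Lemma job MK-IOTA (helper215): zero-dimensional Polish spaces as relatively closed subsets of the set of sequences with
infinitely many ones.
-/

set_option autoImplicit false

open Set TopologicalSpace Topology Filter

namespace Pool.Agent.Q34.MK

/-- `L` is an initial segment of `v` -/
def Pre (v : ℕ → ℕ) (L : List ℕ) : Prop := ∀ i < L.length, L[i]? = some (v i)

/-- the initial segment of length `k` -/
def seg (v : ℕ → ℕ) (k : ℕ) : List ℕ := (List.range k).map v

theorem seg_len (v : ℕ → ℕ) (k : ℕ) : (seg v k).length = k := by simp [seg]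

theorem seg_get (v : ℕ → ℕ) {k i : ℕ} (h : i < k) : (seg v k)[i]? = some (v i) := by
  simp [seg, h]

theorem pre_seg (v : ℕ → ℕ) (k : ℕ) : Pre v (seg v k) := fun i hi => by
  rw [seg_len] at hi
  exact seg_get v hi

theorem ext_of {L L' : List ℕ} (h : L.length = L'.length) (h' : ∀ i < L.length, L[i]? = L'[i]?) :
    L = L' := by
  apply List.ext_getElem?
  intro i
  rcases lt_or_ge i L.length with hi | hi
  · exact h' i hi
  · rw [List.getElem?_eq_none hi, List.getElem?_eq_none (h ▸ hi)]

theorem pre_unique {v : ℕ → ℕ} {L L' : List ℕ} (h : Pre v L) (h' : Pre v L')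
    (hl : L.length = L'.length) : L = L' :=
  ext_of hl fun i hi => by rw [h i hi, h' i (hl ▸ hi)]

theorem pre_take {v : ℕ → ℕ} {L : List ℕ} (h : Pre v L) (j : ℕ) : Pre v (L.take j) := by
  intro i hi
  rw [List.length_take] at hi
  rw [List.getElem?_take, if_pos (lt_of_lt_of_le hi (min_le_left _ _))]
  exact h i (lt_of_lt_of_le hi (min_le_right _ _))

theorem pre_congr {v v' : ℕ → ℕ} {L : List ℕ} (h : ∀ i < L.length, v i = v' i) :
    Pre v L ↔ Pre v' L := by
  constructor
  · intro h1 i hi
    rw [h1 i hi, h i hi]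
  · intro h1 i hi
    rw [h1 i hi, h i hi]

/-- codes for the points of a zero-dimensional Polish space -/
theorem codes (X : Type) [TopologicalSpace X] [PolishSpace X] (b : Set (Set X)) (hbc : b.Countable)
    (hb : IsTopologicalBasis b) (hbcl : ∀ u ∈ b, IsClopen u) (hne : b.Nonempty) :
    ∃ c : ℕ → X → ℕ, (∀ i x, ∀ᶠ y in 𝓝 x, c i y = c i x) ∧
      (∀ (v : ℕ → ℕ) (x : ℕ → X), (∀ k, ∀ i ≤ k, c i (x k) = v i) → ∃ y, ∀ i, c i y = v i) ∧
      ∀ (x : X) (U : Set X), IsOpen U → x ∈ U → ∃ k, ∀ y, c k y = c k x → y ∈ U := by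
  obtain ⟨u, hu⟩ := hbc.exists_eq_range hne
  let _ := upgradeIsCompletelyMetrizable X
  have hub : ∀ n, u n ∈ b := fun n => by rw [hu]; exact mem_range_self n
  -- the good indices
  set G : ℕ → ℕ → Prop := fun i n => ∀ y ∈ u n, ∀ z ∈ u n, dist y z ≤ (1 / 2 : ℝ) ^ i with hG
  set S : ℕ → X → Set ℕ := fun i x => {n | x ∈ u n ∧ G i n} with hS
  have hSne : ∀ i x, (S i x).Nonempty := by
    intro i x
    have hr : (0:ℝ) < (1 / 2) ^ i / 2 := by positivity
    obtain ⟨v, hv, hxv, hvb⟩ := hb.exists_subset_of_mem_open (Metric.mem_ball_self (x := x) hr)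
      Metric.isOpen_ball
    rw [hu] at hv
    obtain ⟨n, rfl⟩ := hv
    refine ⟨n, hxv, fun y hy z hz => ?_⟩
    have h1 := hvb hy
    have h2 := hvb hz
    rw [Metric.mem_ball] at h1 h2
    have h3 := dist_triangle_right y z x
    linarith
  have hmem : ∀ i x, sInf (S i x) ∈ S i x := fun i x => Nat.sInf_mem (hSne i x)
  have hloc : ∀ i x, ∀ᶠ y in 𝓝 x, sInf (S i y) = sInf (S i x) := by
    intro i x
    have h1 : ∀ m, ∀ᶠ y in 𝓝 x, (y ∈ u m ↔ x ∈ u m) := by
      intro m
      by_cases hx : x ∈ u m
      · filter_upwards [(hbcl _ (hub m)).2.mem_nhds hx] with y hy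
        exact ⟨fun _ => hx, fun _ => hy⟩
      · filter_upwards [(hbcl _ (hub m)).1.isOpen_compl.mem_nhds hx] with y hy
        exact ⟨fun h => absurd h hy, fun h => absurd h hx⟩
    have h2 : ∀ᶠ y in 𝓝 x, ∀ m ∈ Finset.range (sInf (S i x) + 1), (y ∈ u m ↔ x ∈ u m) :=
      (Filter.eventually_all_finset _).2 fun m _ => h1 m
    filter_upwards [h2] with y hy
    refine le_antisymm (Nat.sInf_le ?_) (le_csInf (hSne i y) fun m hm => ?_)
    · exact ⟨(hy _ (Finset.mem_range.2 (Nat.lt_succ_self _))).2 (hmem i x).1, (hmem i x).2⟩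
    · by_contra hcon
      rw [not_le] at hcon
      exact Nat.notMem_of_lt_sInf hcon
        ⟨(hy m (Finset.mem_range.2 (hcon.trans (Nat.lt_succ_self _)))).1 hm.1, hm.2⟩
  refine ⟨fun i x => sInf (S i x), hloc, ?_, ?_⟩
  · intro v x hv
    have hd : ∀ k, dist (x k) (x (k + 1)) ≤ 1 * (1 / 2 : ℝ) ^ k := by
      intro k
      have h1 := hmem k (x k)
      have h2 := hmem k (x (k + 1))
      have e1 : sInf (S k (x k)) = v k := hv k k le_rfl
      have e2 : sInf (S k (x (k + 1))) = v k := hv (k + 1) k (Nat.le_succ k)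
      rw [e1] at h1
      rw [e2] at h2
      rw [one_mul]
      exact h1.2 _ h1.1 _ h2.1
    obtain ⟨y, hy⟩ := cauchySeq_tendsto_of_complete
      (cauchySeq_of_le_geometric (1 / 2 : ℝ) 1 (by norm_num) hd)
    refine ⟨y, fun i => ?_⟩
    obtain ⟨k, hk1, hk2⟩ := ((hy.eventually (hloc i y)).and (eventually_ge_atTop i)).exists
    have e1 : sInf (S i (x k)) = v i := hv k i hk2
    exact hk1.symm.trans e1
  · intro x U hU hx
    obtain ⟨ε, hε, hball⟩ := Metric.isOpen_iff.1 hU x hx
    obtain ⟨k, hk⟩ := exists_pow_lt_of_lt_one hε (show (1 / 2 : ℝ) < 1 by norm_num)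
    refine ⟨k, fun y hy => hball ?_⟩
    have h1 := hmem k x
    have h2 := hmem k y
    have hy' : sInf (S k y) = sInf (S k x) := hy
    rw [hy'] at h2
    rw [Metric.mem_ball]
    exact lt_of_le_of_lt (h1.2 _ h2.1 _ h1.1) hk

theorem s_iota : Pool.Agent.Q215.MK.S_iota := by
  classical
  intro X tX pX b hbc hb hbcl
  rcases b.eq_empty_or_nonempty with hbe | hne
  · have hX : IsEmpty X := by
      constructor
      intro x
      have h1 := hb.sUnion_eq
      rw [hbe, sUnion_empty] at h1
      have : x ∈ (∅ : Set X) := by rw [h1]; exact mem_univ x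
      exact this
    refine ⟨fun x => (hX.false x).elim, ?_, fun x => (hX.false x).elim, fun w hw => ?_⟩
    · exact ⟨⟨by
        apply TopologicalSpace.ext
        funext s
        have hs : s = ∅ := by
          ext x
          exact (hX.false x).elim
        rw [hs]
        apply propext
        exact ⟨fun _ => @isOpen_empty _ (_), fun _ => @isOpen_empty _ (_)⟩⟩,
        fun x => (hX.false x).elim⟩
    · rw [range_eq_empty, closure_empty] at hw
      exact absurd hw (notMem_empty _)
  obtain ⟨c, hc1, hc2, hc3⟩ := codes X b hbc hb hbcl hne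
  set cc : X → ℕ → ℕ := fun x i => c i x with hcc
  set ι : X → (ℕ → Bool) := fun x m => decide (Pre (cc x) (Denumerable.ofNat (List ℕ) m)) with hι
  have hιe : ∀ x (L : List ℕ), ι x (Encodable.encode L) = true ↔ Pre (cc x) L := by
    intro x L
    simp only [hι, decide_eq_true_eq, Denumerable.ofNat_encode]
  have hloc : ∀ x k, ∀ᶠ y in 𝓝 x, ∀ i ∈ Finset.range k, c i y = c i x := fun x k =>
    (Filter.eventually_all_finset _).2 fun i _ => hc1 i x
  have hcont : Continuous ι := by
    refine continuous_pi fun m => continuous_iff_continuousAt.2 fun x => ?_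
    have h1 : (fun _ : X => ι x m) =ᶠ[𝓝 x] fun y => ι y m := by
      filter_upwards [hloc x (Denumerable.ofNat (List ℕ) m).length] with y hy
      have h2 : Pre (cc y) (Denumerable.ofNat (List ℕ) m) ↔
          Pre (cc x) (Denumerable.ofNat (List ℕ) m) :=
        pre_congr fun i hi => hy i (Finset.mem_range.2 hi)
      simp only [hι, h2]
    exact continuousAt_const.congr h1
  have hind : IsInducing ι := by
    rw [isInducing_iff_nhds]
    intro x
    refine le_antisymm (hcont.tendsto x).le_comap ?_
    intro U hU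
    obtain ⟨V, hVU, hVo, hxV⟩ := mem_nhds_iff.1 hU
    obtain ⟨k, hk⟩ := hc3 x V hVo hxV
    refine mem_comap.2 ⟨{w | w (Encodable.encode (seg (cc x) (k + 1))) = true}, ?_, ?_⟩
    · refine IsOpen.mem_nhds ?_ ((hιe x _).2 (pre_seg _ _))
      have h2 : Continuous fun w : ℕ → Bool => w (Encodable.encode (seg (cc x) (k + 1))) :=
        continuous_apply _
      exact (isOpen_discrete ({true} : Set Bool)).preimage h2
    · intro y hy
      refine hVU (hk y ?_)
      have h1 := (hιe y _).1 hy
      have h2 := h1 k (by rw [seg_len]; exact Nat.lt_succ_self k)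
      rw [seg_get _ (Nat.lt_succ_self k)] at h2
      exact (Option.some.inj h2).symm
  refine ⟨ι, hind.isEmbedding, fun x n => ?_, fun w hw hinf => ?_⟩
  · have hinj : Function.Injective fun k : ℕ => Encodable.encode (seg (cc x) k) := by
      intro k k' h
      have := Encodable.encode_injective h
      rw [← seg_len (cc x) k, this, seg_len]
    obtain ⟨m, ⟨k, rfl⟩, hm⟩ := (Set.infinite_range_of_injective hinj).exists_gt n
    exact ⟨_, hm.le, (hιe x _).2 (pre_seg _ _)⟩
  · -- approximation
    have apx : ∀ T : Finset ℕ, ∃ x, ∀ m ∈ T, ι x m = w m := by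
      intro T
      have ho : IsOpen {w' : ℕ → Bool | ∀ m ∈ T, w' m = w m} := by
        have e : {w' : ℕ → Bool | ∀ m ∈ T, w' m = w m} = ⋂ m ∈ T, {w' : ℕ → Bool | w' m = w m} := by
          ext w'
          simp
        rw [e]
        refine isOpen_biInter_finset fun m _ => ?_
        exact (isOpen_discrete ({w m} : Set Bool)).preimage
          (continuous_apply (A := fun _ : ℕ => Bool) m)
      obtain ⟨w', hw', x, rfl⟩ := mem_closure_iff.1 hw _ ho fun m _ => rfl
      exact ⟨x, hw'⟩
    have huniq : ∀ L L' : List ℕ, w (Encodable.encode L) = true → w (Encodable.encode L') = true →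
        L.length = L'.length → L = L' := by
      intro L L' h h' hl
      obtain ⟨x, hx⟩ := apx {Encodable.encode L, Encodable.encode L'}
      have h1 := hx _ (Finset.mem_insert_self _ _)
      have h2 := hx _ (Finset.mem_insert_of_mem (Finset.mem_singleton_self _))
      rw [h] at h1
      rw [h'] at h2
      exact pre_unique ((hιe x L).1 h1) ((hιe x L').1 h2) hl
    have htake : ∀ (L : List ℕ) (j : ℕ), w (Encodable.encode L) = true →
        w (Encodable.encode (L.take j)) = true := by
      intro L j h
      obtain ⟨x, hx⟩ := apx {Encodable.encode L, Encodable.encode (L.take j)}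
      have h1 := hx _ (Finset.mem_insert_self _ _)
      have h2 := hx _ (Finset.mem_insert_of_mem (Finset.mem_singleton_self _))
      rw [h] at h1
      rw [← h2]
      exact (hιe x _).2 (pre_take ((hιe x L).1 h1) j)
    have hlong : ∀ k : ℕ, ∃ L : List ℕ, w (Encodable.encode L) = true ∧ k ≤ L.length := by
      intro k
      by_contra hcon
      push Not at hcon
      have hfin : {m : ℕ | w m = true}.Finite := by
        refine Set.Finite.of_injOn (t := ((Finset.range k : Finset ℕ) : Set ℕ))
          (f := fun m => (Denumerable.ofNat (List ℕ) m).length) ?_ ?_ (Finset.finite_toSet _)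
        · intro m hm
          have h1 := hcon (Denumerable.ofNat (List ℕ) m) (by
            rw [Denumerable.encode_ofNat]
            exact hm)
          exact Finset.mem_coe.2 (Finset.mem_range.2 h1)
        · intro m hm m' hm' h
          have h1 := huniq (Denumerable.ofNat (List ℕ) m) (Denumerable.ofNat (List ℕ) m') (by
            rw [Denumerable.encode_ofNat]; exact hm) (by
            rw [Denumerable.encode_ofNat]; exact hm') h
          rw [← Denumerable.encode_ofNat (α := List ℕ) m, h1, Denumerable.encode_ofNat]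
      obtain ⟨B, hB⟩ := hfin.bddAbove
      obtain ⟨m, hm1, hm2⟩ := hinf (B + 1)
      have := hB hm2
      omega
    choose L0 hL0 hL0' using hlong
    set M : ℕ → List ℕ := fun k => (L0 k).take k with hM
    have hMl : ∀ k, (M k).length = k := fun k => by
      rw [hM]
      exact List.length_take_of_le (hL0' k)
    have hMw : ∀ k, w (Encodable.encode (M k)) = true := fun k => htake _ _ (hL0 k)
    set v : ℕ → ℕ := fun i => ((M (i + 1))[i]?).getD 0 with hv
    have hMv : ∀ k, Pre v (M k) := by
      intro k i hi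
      rw [hMl] at hi
      have h1 : (M k).take (i + 1) = M (i + 1) := by
        refine huniq _ _ (htake _ _ (hMw k)) (hMw _) ?_
        rw [hMl, List.length_take_of_le (by rw [hMl]; exact hi)]
      have h2 : (M (i + 1))[i]? = (M k)[i]? := by
        rw [← h1, List.getElem?_take, if_pos (Nat.lt_succ_self i)]
      have h3 : (M (i + 1))[i]? = some (v i) := by
        have h4 : i < (M (i + 1)).length := by rw [hMl]; exact Nat.lt_succ_self i
        simp only [hv]
        rw [List.getElem?_eq_getElem h4, Option.getD_some]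
      rw [← h2, h3]
    have hxk : ∀ k, ∃ x, Pre (cc x) (M (k + 1)) := by
      intro k
      obtain ⟨x, hx⟩ := apx {Encodable.encode (M (k + 1))}
      have h1 := hx _ (Finset.mem_singleton_self _)
      rw [hMw] at h1
      exact ⟨x, (hιe x _).1 h1⟩
    choose xs hxs using hxk
    obtain ⟨y, hy⟩ := hc2 v xs (fun k i hik => by
      have h1 : i < (M (k + 1)).length := by rw [hMl]; omega
      have h2 := hxs k i h1
      rw [hMv (k + 1) i h1] at h2
      exact (Option.some.inj h2).symm)
    refine ⟨y, funext fun m => ?_⟩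
    have hyv : cc y = v := funext hy
    have e1 : Encodable.encode (Denumerable.ofNat (List ℕ) m) = m := Denumerable.encode_ofNat m
    have key : ι y m = true ↔ w m = true := by
      constructor
      · intro h
        rw [← e1] at h
        have h1 := (hιe y _).1 h
        rw [hyv] at h1
        have h2 := pre_unique h1 (hMv (Denumerable.ofNat (List ℕ) m).length) (hMl _).symm
        rw [← e1, h2]
        exact hMw _
      · intro h
        rw [← e1] at h
        have h2 := huniq _ _ h (hMw (Denumerable.ofNat (List ℕ) m).length) (hMl _).symm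
        rw [← e1]
        refine (hιe y _).2 ?_
        rw [hyv, h2]
        exact hMv _
    exact Bool.eq_iff_iff.2 key

end Pool.Agent.Q34.MK
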