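import Pool.Agent.Q215.MK.Stm

/-!
Lemma job MK-ZERO (helper215): zero-dimensional Polish topologies with countably many continuous Borel maps.
-/

set_option autoImplicit false

open Set TopologicalSpace Topology MeasureTheory

namespace Pool.Agent.Q34.MK

/-- stages of the construction -/
structure St (X : Type) [m : MeasurableSpace X] where
  /-- the topology -/
  t : TopologicalSpace X
  /-- the family of sets -/
  A : Set (Set X)
  pol : @PolishSpace X t
  bor : @BorelSpace X t m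
  cnt : A.Countable
  mea : ∀ a ∈ A, MeasurableSet a
  bas : ∃ B ⊆ A, t = generateFrom B

theorem step {X : Type} [m : MeasurableSpace X] (g : ℕ → X → X) (hg : ∀ n, Measurable (g n))
    (s : St X) : ∃ s' : St X, s'.t ≤ s.t ∧ s.A ⊆ s'.A ∧
      (∀ a ∈ s.A, IsClosed[s'.t] a ∧ IsOpen[s'.t] a) ∧
      (∀ a ∈ s.A, ∀ b ∈ s.A, a ∩ b ∈ s'.A) ∧ ∀ a ∈ s.A, ∀ n, g n ⁻¹' a ∈ s'.A := by
  let := s.t
  have := s.pol
  have := s.bor
  have : Countable s.A := s.cnt.to_subtype
  have h1 : ∀ a : s.A, PolishSpace.IsClopenable (a : Set X) := fun a => (s.mea a a.2).isClopenable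
  choose T Tt Tp Tc To using h1
  obtain ⟨t', h2, h3, h4⟩ := PolishSpace.exists_polishSpace_forall_le (t := s.t) T Tt Tp
  have hb : @borel X t' = m := by
    rw [borel_eq_borel_of_le h4 s.pol h3]
    exact s.bor.measurable_eq.symm
  obtain ⟨B, hBc, -, hB⟩ := @exists_countable_basis X t'
    (@PolishSpace.toSecondCountableTopology X t' h4)
  have hcl : ∀ a ∈ s.A, IsClosed[t'] a ∧ IsOpen[t'] a := fun a ha =>
    ⟨(@isOpen_compl_iff X a t').1 (h2 ⟨a, ha⟩ _ ((@isOpen_compl_iff X a (T ⟨a, ha⟩)).2 (Tc ⟨a, ha⟩))),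
      h2 ⟨a, ha⟩ _ (To ⟨a, ha⟩)⟩
  refine ⟨⟨t', (B ∪ s.A) ∪ (image2 (fun a b => a ∩ b) s.A s.A ∪ ⋃ n, (fun a => g n ⁻¹' a) '' s.A),
    h4, @BorelSpace.mk X t' m hb.symm, ?_, ?_, ⟨B, ?_, hB.eq_generateFrom⟩⟩, h3, ?_, hcl, ?_, ?_⟩
  · exact (hBc.union s.cnt).union ((s.cnt.image2 s.cnt _).union
      (countable_iUnion fun n => s.cnt.image _))
  · rintro a ((ha | ha) | (ha | ha))
    · rw [← hb]
      exact @IsOpen.measurableSet X a t' (@borel X t') (@BorelSpace.opensMeasurable X t' (@borel X t')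
        (@BorelSpace.mk X t' (@borel X t') rfl)) (@IsTopologicalBasis.isOpen X t' a B hB ha)
    · exact s.mea a ha
    · obtain ⟨b, hb1, c, hc1, rfl⟩ := ha
      exact (s.mea b hb1).inter (s.mea c hc1)
    · obtain ⟨n, hn⟩ := mem_iUnion.1 ha
      obtain ⟨b, hb1, rfl⟩ := hn
      exact hg n (s.mea b hb1)
  · exact fun a ha => Or.inl (Or.inl ha)
  · exact fun a ha => Or.inl (Or.inr ha)
  · exact fun a ha b hb1 => Or.inr (Or.inl ⟨a, ha, b, hb1, rfl⟩)
  · exact fun a ha n => Or.inr (Or.inr (mem_iUnion.2 ⟨n, a, ha, rfl⟩))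

theorem s_zero : Pool.Agent.Q215.MK.S_zero := by
  intro X m hX g hg h hh
  obtain ⟨t0, hb0, hp0⟩ := hX.polish
  obtain ⟨B0, hBc, -, hB0⟩ := @exists_countable_basis X t0
    (@PolishSpace.toSecondCountableTopology X t0 hp0)
  let s0 : St X := ⟨t0, B0 ∪ ({univ} ∪ range fun k : ℕ => h ⁻¹' {k}), hp0, hb0,
    hBc.union ((countable_singleton _).union (countable_range _)), by
      rintro a (ha | ha | ha)
      · exact @IsOpen.measurableSet X a t0 m (@BorelSpace.opensMeasurable X t0 m hb0)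
          (@IsTopologicalBasis.isOpen X t0 a B0 hB0 ha)
      · rw [mem_singleton_iff.1 ha]
        exact MeasurableSet.univ
      · obtain ⟨k, rfl⟩ := ha
        exact hh (measurableSet_singleton k),
    ⟨B0, subset_union_left, hB0.eq_generateFrom⟩⟩
  choose f hf1 hf2 hf3 hf4 hf5 using step g hg
  let s : ℕ → St X := fun n => Nat.rec s0 (fun _ r => f r) n
  have hs0 : s 0 = s0 := rfl
  have hss : ∀ n, s (n + 1) = f (s n) := fun n => rfl
  have hmt : ∀ n k, (s (n + k)).t ≤ (s n).t := by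
    intro n k
    induction k with
    | zero => exact le_rfl
    | succ k ih =>
      rw [← add_assoc, hss]
      exact (hf1 _).trans ih
  have hmA : ∀ n k, (s n).A ⊆ (s (n + k)).A := by
    intro n k
    induction k with
    | zero => exact Subset.rfl
    | succ k ih =>
      rw [← add_assoc, hss]
      exact ih.trans (hf2 _)
  have hmA' : ∀ {n k}, n ≤ k → (s n).A ⊆ (s k).A := by
    intro n k hnk
    obtain ⟨j, rfl⟩ := Nat.exists_eq_add_of_le hnk
    exact hmA n j
  have hp : @PolishSpace X (⨅ n, (s n).t) := by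
    refine PolishSpace.iInf ⟨0, fun i => ?_⟩ fun i => (s i).pol
    have := hmt 0 i
    rwa [zero_add] at this
  set A : Set (Set X) := ⋃ n, (s n).A with hA
  have hclo : ∀ a ∈ A, @IsClopen X (⨅ n, (s n).t) a := by
    intro a ha
    obtain ⟨n, hn⟩ := mem_iUnion.1 ha
    have h1 := hf3 (s n) a hn
    rw [← hss] at h1
    have h2 : (⨅ n, (s n).t) ≤ (s (n + 1)).t := iInf_le (fun n => (s n).t) (n + 1)
    exact ⟨(@isOpen_compl_iff X a (⨅ n, (s n).t)).1
      (h2 _ ((@isOpen_compl_iff X a (s (n + 1)).t).2 h1.1)), h2 _ h1.2⟩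
  have hgen : (⨅ n, (s n).t) = generateFrom A := by
    refine le_antisymm (le_generateFrom fun a ha => (hclo a ha).2) (le_iInf fun n => ?_)
    obtain ⟨B, hBA, hBt⟩ := (s n).bas
    rw [hBt]
    exact generateFrom_anti (hBA.trans (subset_iUnion (fun n => (s n).A) n))
  have hbas : @IsTopologicalBasis X (⨅ n, (s n).t) A := by
    refine @IsTopologicalBasis.mk X (⨅ n, (s n).t) A ?_ ?_ hgen
    · intro a ha b hb x hx
      obtain ⟨n, hn⟩ := mem_iUnion.1 ha
      obtain ⟨k, hk⟩ := mem_iUnion.1 hb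
      refine ⟨a ∩ b, mem_iUnion.2 ⟨max n k + 1, ?_⟩, hx, Subset.rfl⟩
      rw [hss]
      exact hf4 _ a (hmA' (le_max_left n k) hn) b (hmA' (le_max_right n k) hk)
    · rw [eq_univ_iff_forall]
      intro x
      exact mem_sUnion.2 ⟨univ, mem_iUnion.2 ⟨0, Or.inr (Or.inl rfl)⟩, mem_univ x⟩
  refine ⟨⨅ n, (s n).t, hp, ?_, fun n => ?_, ?_, A, ?_, hbas, hclo⟩
  · refine @BorelSpace.mk X (⨅ n, (s n).t) m ?_
    rw [borel_eq_borel_of_le hp hp0 (iInf_le (fun n => (s n).t) 0)]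
    exact hb0.measurable_eq
  · refine (@IsTopologicalBasis.continuous_iff X X (⨅ n, (s n).t) (⨅ n, (s n).t) A hbas (g n)).2 ?_
    intro a ha
    obtain ⟨k, hk⟩ := mem_iUnion.1 ha
    refine (hclo _ (mem_iUnion.2 ⟨k + 1, ?_⟩)).2
    rw [hss]
    exact hf5 _ a hk n
  · let tt : TopologicalSpace X := ⨅ n, (s n).t
    exact continuous_discrete_rng.2 fun k =>
      (hclo _ (mem_iUnion.2 ⟨0, Or.inr (Or.inr ⟨k, rfl⟩)⟩)).2
  · exact countable_iUnion fun n => (s n).cnt

end Pool.Agent.Q34.MK
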